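import Mathlib
import Pool.Agent.Run7.h823.Circ.Final

/-!
The minimum number of circles determined by `n` points of the plane, not all on one line and not
all on one circle, for `n = 4`, `n = 5` and every `n ≥ 15`.
-/

namespace Pool.Agent.Results.MP_1f1ca1_co.FormulaFromFifteen

/-- The number of circles of the Euclidean plane that pass through at least three points of `P`.
(A sphere of the plane with at least three points on it has positive radius, and is determined by
its set of points.) -/
noncomputable def circleCount (P : Finset (EuclideanSpace ℝ (Fin 2))) : ℕ :=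
  {S : EuclideanGeometry.Sphere (EuclideanSpace ℝ (Fin 2)) |
    3 ≤ {x : EuclideanSpace ℝ (Fin 2) | x ∈ P ∧ x ∈ S}.ncard}.ncard

/-- The points of `P` do not all lie on one line and do not all lie on one circle. -/
def Admissible (P : Finset (EuclideanSpace ℝ (Fin 2))) : Prop :=
  ¬ Collinear ℝ (P : Set (EuclideanSpace ℝ (Fin 2))) ∧
    ¬ EuclideanGeometry.Cospherical (P : Set (EuclideanSpace ℝ (Fin 2)))

/-- For `n = 4`, `n = 5` and every `n ≥ 15`, the minimum of the number of circles determined by an
admissible set of `n` points is `C(n - 1, 2) + 1 - ⌊(n - 1) / 2⌋`. -/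
theorem result (n : ℕ) (hn : n = 4 ∨ n = 5 ∨ 15 ≤ n) :
    IsLeast {c : ℕ | ∃ P : Finset (EuclideanSpace ℝ (Fin 2)),
      P.card = n ∧ Admissible P ∧ circleCount P = c}
      ((n - 1).choose 2 + 1 - (n - 1) / 2) := by
  have hlow : ∀ P : Finset (EuclideanSpace ℝ (Fin 2)), P.card = n → Admissible P →
      (n - 1).choose 2 + 1 - (n - 1) / 2 ≤ circleCount P := by
    rintro P rfl hP
    exact Run7.h823.Circ.lower_plane hP hn
  constructor
  · obtain ⟨N, rfl⟩ : ∃ N, n = N + 1 := ⟨n - 1, by omega⟩
    obtain ⟨P, h1, h2, h3⟩ := Run7.h823.Circ.upper_plane (N := N) (by omega)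
    exact ⟨P, h1, h2, le_antisymm h3 (hlow P h1 h2)⟩
  · rintro c ⟨P, h1, h2, rfl⟩
    exact hlow P h1 h2

end Pool.Agent.Results.MP_1f1ca1_co.FormulaFromFifteen
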